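import Pool.Agent.N922.PZ.Stm
import Pool.Agent.N896.PQ.Sh7

/-!
# Project PZ, leaf SEL (helper390): the `2 ^ k`-Selmer groups are zero
-/

set_option autoImplicit false
set_option linter.all false

namespace Pool.Agent.N390.PZ.SEL

open Polynomial
open scoped Classical
open Pool.Agent.N922.PZ
open Pool.Agent.Y723.HJ (CR OddM HF clmap mapR CC mi bar nm cl)
open Pool.Agent.N783.PQ (pol fol Cg Ht SelZero Jac jmap act QB GQ IsCocycle IsShaCocycle JacQ
  shaCocycles)
open Pool.Agent.N896.PQ (hf_of cob_sha halve)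

variable {g : ℕ} {a : Fin (2 * g) → ℤ}

/-- division by powers of two -/
lemma halves [HF (fol a QB)] : ∀ (k : ℕ) (Q : Jac a QB), ∃ P : Jac a QB, 2 ^ k • P = Q
  | 0, Q => ⟨Q, by rw [pow_zero, one_smul]⟩
  | k + 1, Q => by
    obtain ⟨P, hP⟩ := halves k Q
    obtain ⟨R, hR⟩ := halve P
    refine ⟨R, ?_⟩
    rw [pow_succ, mul_smul, two_smul, hR, hP]

theorem sel (hrep : Pool.Agent.N783.PQ.S_REP) : S_SEL := by
  intro g a hirr hz k
  haveI : HF (fol a QB) := hf_of hirr QB
  induction k with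
  | zero =>
    intro c hc h0
    refine ⟨0, smul_zero _, fun σ => ?_⟩
    have h1 := h0 σ
    rw [pow_zero, one_smul] at h1
    rw [h1, map_zero, sub_zero]
  | succ k ih =>
    intro c hc h0
    have hc' : c ∈ shaCocycles a := hc
    have h1 : 2 ^ k • c ∈ shaCocycles a := (shaCocycles a).nsmul_mem hc' _
    obtain ⟨T1, hT1, hT1'⟩ := hrep g a hirr hz (2 ^ k • c) h1 (fun σ => by
      show 2 ^ k • c σ + 2 ^ k • c σ = 0
      rw [← two_smul ℕ (2 ^ k • c σ), ← mul_smul, ← pow_succ', h0])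
    obtain ⟨T2, hT2⟩ := halves k T1
    have h2 : (fun σ : GQ => act a σ T2 - T2) ∈ shaCocycles a := cob_sha hirr T2
    have h3 : c - (fun σ : GQ => act a σ T2 - T2) ∈ shaCocycles a :=
      (shaCocycles a).sub_mem hc' h2
    obtain ⟨T3, hT3, hT3'⟩ := ih (c - fun σ : GQ => act a σ T2 - T2) h3 (fun σ => by
      show 2 ^ k • (c σ - (act a σ T2 - T2)) = 0
      have h4 : 2 ^ k • c σ = act a σ T1 - T1 := hT1' σ
      rw [smul_sub, smul_sub, h4, ← map_nsmul, hT2, sub_self])
    refine ⟨T2 + T3, ?_, fun σ => ?_⟩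
    · rw [pow_succ', mul_smul, smul_add, hT2, hT3, add_zero, two_smul, hT1]
    · have h5 : c σ - (act a σ T2 - T2) = act a σ T3 - T3 := hT3' σ
      rw [map_add, eq_add_of_sub_eq h5]
      abel

end Pool.Agent.N390.PZ.SEL
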